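import Pool.Agent.MP_bd94e8_al.H70B.Mor

/-!
Properties of the enlargements of a problem with a flag.
-/

set_option autoImplicit false
set_option linter.unusedSectionVars false

namespace Pool.Agent.MP_bd94e8_al.H89

open Module Function

namespace Enl2A

variable {k F : Type} [Field k] [Field F] [Algebra k F] {Pt ι Ω : Type} [Fintype Pt]
  [DecidableEq Pt]

section blocks
variable (P : Prob k F Pt ι Ω)

theorem blk_in (i j : ι) (b : Matrix Pt Pt F) : P.In i j (P.blk i j b) :=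
  fun _ _ h => (mask_ne h).1

theorem blk_self {i j : ι} {b : Matrix Pt Pt F} (h : P.In i j b) : P.blk i j b = b := by
  ext q p
  by_cases e : P.vt p = i ∧ P.vt q = j
  · exact P.blk_pos b e.1 e.2
  · rw [P.blk_neg b e]
    by_contra h0
    exact e (h q p fun h1 => h0 h1.symm)

theorem blk_ne {i j i' j' : ι} {b : Matrix Pt Pt F} (h : P.In i j b) (hne : ¬ (i' = i ∧ j' = j)) :
    P.blk i' j' b = 0 := by
  ext q p
  by_contra h0
  obtain ⟨⟨h1, h2⟩, h3⟩ := mask_ne h0
  obtain ⟨h4, h5⟩ := h q p h3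
  exact hne ⟨h1.symm.trans h4, h2.symm.trans h5⟩

theorem sum_blk [Fintype ι] (b : Matrix Pt Pt F) : ∑ i, ∑ j, P.blk i j b = b := by
  ext q p
  rw [Matrix.sum_apply, Finset.sum_eq_single (P.vt p), Matrix.sum_apply,
    Finset.sum_eq_single (P.vt q), P.blk_pos b rfl rfl]
  · exact fun j _ hj => P.blk_neg b fun h => hj h.2.symm
  · simp
  · intro i _ hi
    rw [Matrix.sum_apply]
    exact Finset.sum_eq_zero fun j _ => P.blk_neg b fun h => hi h.1.symm
  · simp

theorem e_in (i : ι) : P.In i i (P.e i) := by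
  intro q p h
  have h1 : P.vt p = i := by
    by_contra h0
    exact h (P.e_neg q h0)
  have h2 : q = p := by
    by_contra h0
    exact h (P.e_off i h0)
  exact ⟨h1, h2 ▸ h1⟩

theorem e_H (i : ι) : P.e i ∈ P.H i i := ⟨P.e_mem i, e_in P i⟩

theorem e_diag {i : ι} {p : Pt} (h : P.vt p = i) : P.e i p p = 1 := by
  rw [P.e_pos p h, Matrix.one_apply_eq]

theorem e_mul {i j : ι} {b : Matrix Pt Pt F} (h : P.In i j b) : P.e j * b = b := by
  ext q p
  rw [Matrix.mul_apply, Finset.sum_eq_single q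
    (fun x _ hx => by rw [P.e_off j hx.symm, zero_mul]) (by simp)]
  by_cases e : P.vt q = j
  · rw [e_diag P e, one_mul]
  · rw [P.e_neg q e, zero_mul]
    by_contra h0
    exact e (h q p fun h1 => h0 h1.symm).2

theorem in_mul {i j j' l : ι} {b c : Matrix Pt Pt F} (hb : P.In j' l b) (hc : P.In i j c) :
    P.In i l (b * c) := by
  intro q p h
  rw [Matrix.mul_apply] at h
  obtain ⟨r, -, hr⟩ := Finset.exists_ne_zero_of_sum_ne_zero h
  exact ⟨(hc r p (right_ne_zero_of_mul hr)).1, (hb q r (left_ne_zero_of_mul hr)).2⟩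

theorem in_smul {i j : ι} {b : Matrix Pt Pt F} (c : F) (hb : P.In i j b) : P.In i j (c • b) :=
  fun q p h => hb q p fun e => h (by simp [e])

theorem in_single {p q : Pt} {i j : ι} (hp : P.vt p = i) (hq : P.vt q = j) (c : F) :
    P.In i j (Matrix.single q p c) := by
  intro q' p' h
  by_cases e : q = q' ∧ p = p'
  · exact ⟨e.2 ▸ hp, e.1 ▸ hq⟩
  · exact (h (Matrix.single_apply_of_ne _ _ _ _ _ e)).elim

theorem eq_zero_of_bot {z : ι} (h : P.H z z = ⊥) {c : Matrix Pt Pt F} (hc : P.In z z c) :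
    c = 0 := by
  have h1 := e_H P z
  rw [h, Submodule.mem_bot] at h1
  rw [← e_mul P hc, h1, zero_mul]

theorem sum_e [Fintype ι] : ∑ i, P.e i = 1 := by
  ext q p
  rw [Matrix.sum_apply, Finset.sum_eq_single (P.vt p) (fun i _ hi => P.e_neg q hi.symm) (by simp),
    P.e_pos q rfl]

end blocks

theorem In_congr {P Q : Prob k F Pt ι Ω} (h : Q.vt = P.vt) : Q.In = P.In := by
  unfold Prob.In; rw [h]

theorem e_congr {P Q : Prob k F Pt ι Ω} (h : Q.vt = P.vt) : Q.e = P.e := by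
  unfold Prob.e; rw [h]

theorem nil_comm {R : Type} [Ring R] {a b : R} (h : IsNilpotent (a * b)) :
    IsNilpotent (b * a) := by
  obtain ⟨n, hn⟩ := h
  refine ⟨n + 1, ?_⟩
  rw [pow_succ', mul_assoc, ← mul_pow_mul, hn, zero_mul, mul_zero]

variable {P Q : Prob k F Pt ι Unit} {val : Set ι} {ht : Pt → ℕ}

theorem span_tri (hF : Flag P val ht) {i : ι} (hi : i ∉ val) {b : Matrix Pt Pt F}
    (hb : b ∈ Submodule.span F (P.H i i : Set (Matrix Pt Pt F))) :
    (∀ q p, P.vt q = i → P.vt p = i → ht q < ht p → b q p = 0) ∧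
      ∀ p q, P.vt p = i → P.vt q = i → b p p = b q q := by
  induction hb using Submodule.span_induction with
  | mem b hb =>
    refine ⟨fun q p hq hp hlt => ?_, fun p q hp hq =>
      hF.diag b hb.1 p q (hp.trans hq.symm) (hp ▸ hi)⟩
    by_contra h0
    exact absurd (hF.tri b hb.1 q p (hq.trans hp.symm) (hp ▸ hi) h0) (not_le.2 hlt)
  | zero => exact ⟨fun _ _ _ _ _ => rfl, fun _ _ _ _ => rfl⟩
  | add x y _ _ hx hy =>
    exact ⟨fun q p hq hp h => by rw [Matrix.add_apply, hx.1 q p hq hp h, hy.1 q p hq hp h, add_zero],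
      fun p q hp hq => by rw [Matrix.add_apply, Matrix.add_apply, hx.2 p q hp hq, hy.2 p q hp hq]⟩
  | smul c x _ hx =>
    exact ⟨fun q p hq hp h => by rw [Matrix.smul_apply, hx.1 q p hq hp h, smul_zero],
      fun p q hp hq => by rw [Matrix.smul_apply, Matrix.smul_apply, hx.2 p q hp hq]⟩

theorem tri_of (hF : Flag P val ht) {b : Matrix Pt Pt F}
    (hb : ∀ i, i ∉ val → P.blk i i b ∈ Submodule.span F (P.H i i : Set (Matrix Pt Pt F))) :
    (∀ q p, P.vt q = P.vt p → P.vt p ∉ val → b q p ≠ 0 → ht p ≤ ht q) ∧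
      ∀ p q, P.vt p = P.vt q → P.vt p ∉ val → b p p = b q q := by
  refine ⟨fun q p e hp h0 => ?_, fun p q e hp => ?_⟩
  · by_contra hlt
    have h := (span_tri hF hp (hb _ hp)).1 q p e rfl (not_le.1 hlt)
    rw [P.blk_pos b rfl e] at h
    exact h0 h
  · have h := (span_tri hF hp (hb _ hp)).2 p q rfl e.symm
    rwa [P.blk_pos b rfl rfl, P.blk_pos b e.symm e.symm] at h

/-- Two different valued vertices are not joined in both directions. -/
theorem val_bot (hF : Flag P val ht) {i j : ι} (hij : i ≠ j) (hi : i ∈ val) (hj : j ∈ val) :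
    P.H i j = ⊥ ∨ P.H j i = ⊥ := by
  by_contra hcon
  rw [not_or] at hcon
  obtain ⟨h, hh, h0⟩ := Submodule.exists_mem_ne_zero_of_ne_bot hcon.1
  obtain ⟨h', hh', h0'⟩ := Submodule.exists_mem_ne_zero_of_ne_bot hcon.2
  have key : ∀ c ∈ P.H j j, h' * (c * h) = 0 := by
    intro c hc
    have h1 : c * h ∈ P.H i j := ⟨P.B.mul_mem hc.1 hh.1, in_mul P hc.2 hh.2⟩
    have h2 : h' * (c * h) ∈ P.H i i := ⟨P.B.mul_mem hh'.1 h1.1, in_mul P hh'.2 h1.2⟩
    obtain ⟨n, hn⟩ := hF.basic i j hij _ h1 _ hh'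
    by_contra hne
    obtain ⟨y, -, hy⟩ := hF.div i hi _ h2 hne
    generalize h' * (c * h) = x at hn hne hy h2
    have h3 : ∀ m : ℕ, x ^ m * x = 0 → x = 0 := by
      intro m
      induction m with
      | zero => intro h; rwa [pow_zero, one_mul] at h
      | succ m ih =>
        intro h
        apply ih
        have h4 : P.In i i (x ^ m * x) := by
          clear h ih
          induction m with
          | zero => rw [pow_zero, one_mul]; exact h2.2
          | succ m ih => rw [pow_succ', mul_assoc]; exact in_mul P h2.2 ih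
        rw [← e_mul P h4, ← hy, mul_assoc, ← mul_assoc x, ← pow_succ', h, mul_zero]
    exact hne (h3 n (by rw [hn, zero_mul]))
  let W : Submodule F (Pt → F) :=
    { carrier := {x | (∀ p, P.vt p ≠ j → x p = 0) ∧ ∀ c ∈ P.H j j, h'.mulVec (c.mulVec x) = 0}
      add_mem' := fun {x y} hx hy => ⟨fun p hp => by rw [Pi.add_apply, hx.1 p hp, hy.1 p hp, add_zero],
        fun c hc => by rw [Matrix.mulVec_add, Matrix.mulVec_add, hx.2 c hc, hy.2 c hc, add_zero]⟩
      zero_mem' := ⟨fun _ _ => rfl, fun c _ => by rw [Matrix.mulVec_zero, Matrix.mulVec_zero]⟩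
      smul_mem' := fun a x hx => ⟨fun p hp => by rw [Pi.smul_apply, hx.1 p hp, smul_zero],
        fun c hc => by rw [Matrix.mulVec_smul, Matrix.mulVec_smul, hx.2 c hc, smul_zero]⟩ }
  have hW := hF.col j hj W (fun x hx => hx.1) (fun b hb x hx => ⟨fun p hp => ?_, fun c hc => ?_⟩)
  · rcases hW with hW | hW
    · apply h0
      ext q p
      have h1 : h.mulVec (Pi.single p 1) ∈ W := by
        refine ⟨fun r hr => ?_, fun c hc => ?_⟩
        · rw [Matrix.mulVec_single_one]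
          by_contra h2
          exact hr (hh.2 r p h2).2
        · rw [Matrix.mulVec_mulVec, Matrix.mulVec_mulVec, mul_assoc, key c hc, Matrix.zero_mulVec]
      rw [hW, Submodule.mem_bot, Matrix.mulVec_single_one] at h1
      exact congrFun h1 q
    · apply h0'
      ext q p
      by_contra h2
      have hp := (hh'.2 q p h2).1
      have h1 := (hW (Pi.single p 1) fun r hr => Pi.single_eq_of_ne
        (fun e : r = p => hr (e ▸ hp)) _).2 _
        (e_H P j)
      rw [Matrix.mulVec_mulVec, Matrix.mulVec_single_one] at h1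
      have h3 : (h' * P.e j) q p = 0 := congrFun h1 q
      rw [Matrix.mul_apply, Finset.sum_eq_single p
        (fun x _ hx => by rw [P.e_off j hx, mul_zero]) (by simp), e_diag P hp, mul_one] at h3
      exact h2 h3
  · refine Finset.sum_eq_zero fun r _ => ?_
    have h1 : b p r = 0 := by
      by_contra h2
      exact hp (hb.2 p r h2).2
    show b p r * x r = 0
    rw [h1, zero_mul]
  · rw [Matrix.mulVec_mulVec x c b]
    exact hx.2 _ ⟨P.B.mul_mem hc.1 hb.1, in_mul P hc.2 hb.2⟩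

/-- What the two enlargements with full valued blocks have in common. -/
structure Big (P Q : Prob k F Pt ι Unit) (val : Set ι) : Prop where
  vt : Q.vt = P.vt
  le : P.B ≤ Q.B
  fat : ∀ z ∈ val, ∀ c, P.In z z c → c ∈ Q.B
  dg : ∀ b ∈ Q.B, ∀ i, i ∉ val → P.blk i i b ∈ Submodule.span F (P.H i i : Set (Matrix Pt Pt F))
  off : ∀ b ∈ Q.B, ∀ i j, i ≠ j → ¬ (i ∈ val ∧ j ∈ val) → P.blk i j b ∈ P.B
  vv : ∀ b ∈ Q.B, ∀ i ∈ val, ∀ j ∈ val, P.H i j = ⊥ → P.blk i j b = 0

theorem big_dv (h : IsDv P val Q) : Big P Q val where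
  vt := h.1
  le := fun b hb => (h.2 b).2 fun i j => ⟨fun _ h0 => by
    have h1 := P.blk_mem hb i j
    rwa [h0, Submodule.mem_bot] at h1, fun _ => (P.blk_mem hb i j).1⟩
  fat := fun z hz c hc => (h.2 c).2 fun i j => by
    by_cases e : i = z ∧ j = z
    · obtain ⟨rfl, rfl⟩ := e
      exact ⟨fun _ h0 => eq_zero_of_bot P h0 (blk_in P _ _ c), fun h0 => (h0 ⟨hz, hz⟩).elim⟩
    · rw [blk_ne P hc e]
      exact ⟨fun _ _ => rfl, fun _ => zero_mem _⟩
  dg := fun b hb i hi => Submodule.subset_span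
    ⟨((h.2 b).1 hb i i).2 fun h0 => hi h0.1, blk_in P i i b⟩
  off := fun b hb i j _ h0 => ((h.2 b).1 hb i j).2 h0
  vv := fun b hb i hi j hj h0 => ((h.2 b).1 hb i j).1 ⟨hi, hj⟩ h0

theorem big_fat (h : IsFat P val Q) : Big P Q val where
  vt := h.1
  le := fun b hb => (h.2 b).2 fun i j => ⟨fun _ h0 => by
    have h1 := P.blk_mem hb i j
    rwa [h0, Submodule.mem_bot] at h1, fun h0 => by
    obtain ⟨rfl, -⟩ := h0
    exact Submodule.subset_span (P.blk_mem hb i i), fun _ _ => (P.blk_mem hb i j).1⟩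
  fat := fun z hz c hc => (h.2 c).2 fun i j => by
    by_cases e : i = z ∧ j = z
    · obtain ⟨rfl, rfl⟩ := e
      exact ⟨fun _ h0 => eq_zero_of_bot P h0 (blk_in P _ _ c), fun h0 => (h0.2 hz).elim,
        fun h0 => (h0 rfl).elim⟩
    · rw [blk_ne P hc e]
      exact ⟨fun _ _ => rfl, fun _ => zero_mem _, fun _ _ => zero_mem _⟩
  dg := fun b hb i hi => ((h.2 b).1 hb i i).2.1 ⟨rfl, hi⟩
  off := fun b hb i j hij h0 => ((h.2 b).1 hb i j).2.2 hij h0
  vv := fun b hb i hi j hj h0 => ((h.2 b).1 hb i j).1 ⟨hi, hj⟩ h0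

variable {S : Pt → Prop} [DecidablePred S]

theorem eps_mul (b : Matrix Pt Pt F) (q p : Pt) :
    (mask (fun _ p => S p) (1 : Matrix Pt Pt F) * b) q p = if S q then b q p else 0 := by
  have h := congrFun (MorA.act_eps S (F := F) (V := F) fun r => b r p) q
  rw [Matrix.mul_apply]
  refine h.trans ?_
  show (if h : S q then b q p else 0) = _
  by_cases e : S q <;> simp [e]

theorem eps_mul_of (hS : IsRep P.vt val S) {i j : ι} (hj : j ∉ val) {b : Matrix Pt Pt F}
    (hb : P.In i j b) : mask (fun _ p => S p) (1 : Matrix Pt Pt F) * b = b := by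
  ext q p
  rw [eps_mul]
  split_ifs with e
  · rfl
  · by_contra h0
    exact e (hS.1 q ((hb q p fun h1 => h0 h1.symm).2 ▸ hj))

theorem eps_comm (j : ι) : mask (fun _ p => S p) (1 : Matrix Pt Pt F) * P.e j =
    P.blk j j (mask (fun _ p => S p) (1 : Matrix Pt Pt F)) := by
  ext q p
  rw [eps_mul]
  by_cases e : q = p
  · subst e
    by_cases e1 : P.vt q = j
    · rw [P.blk_pos _ e1 e1, e_diag P e1, mask_apply, Matrix.one_apply_eq]
      by_cases e2 : S q <;> simp [e2]
    · rw [P.blk_neg _ fun h => e1 h.1, P.e_neg q e1, ite_self]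
  · rw [P.e_off j e, ite_self]
    by_contra h0
    exact (mask_ne (mask_ne fun h1 => h0 h1.symm).2).2 (Matrix.one_apply_ne e)

theorem mor_ok [Fintype ι] (hS : IsRep P.vt val S) (hB : Big P Q val) : MorOk Q S := by
  constructor
  · rw [← mul_one (mask (fun _ p => S p) (1 : Matrix Pt Pt F)), ← sum_e P, Finset.mul_sum]
    refine Subalgebra.sum_mem _ fun i _ => ?_
    rw [sum_e P]
    by_cases hi : i ∈ val
    · rw [eps_comm]
      exact hB.fat i hi _ (blk_in P _ _ _)
    · rw [eps_mul_of hS hi (e_in P i)]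
      exact hB.le (P.e_mem i)
  · have h1 : ∀ i, P.e i ∈ AddSubgroup.closure {x | ∃ b ∈ Q.B, ∃ b' ∈ Q.B,
        x = b * mask (fun _ p => S p) (1 : Matrix Pt Pt F) * b'} := by
      intro i
      by_cases hi : i ∈ val
      · obtain ⟨p0, ⟨h0, h0'⟩, -⟩ := hS.2 i hi
        rw [Matrix.matrix_eq_sum_single (P.e i)]
        refine sum_mem fun q _ => sum_mem fun p _ => ?_
        by_cases e : P.e i q p = 0
        · rw [e, Matrix.single_zero]
          exact zero_mem _
        obtain ⟨hp, hq⟩ := e_in P i q p e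
        refine AddSubgroup.subset_closure ⟨Matrix.single q p0 (P.e i q p),
          hB.fat i hi _ (in_single P h0 hq _), Matrix.single p0 p 1,
          hB.fat i hi _ (in_single P hp h0 _), ?_⟩
        have h2 : mask (fun _ p => S p) (1 : Matrix Pt Pt F) * Matrix.single p0 p (1 : F) =
            Matrix.single p0 p 1 := by
          ext q' p'
          rw [eps_mul]
          split_ifs with e'
          · rfl
          · exact (Matrix.single_apply_of_ne _ _ _ _ _ fun h : p0 = q' ∧ p = p' =>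
              e' (h.1 ▸ h0')).symm
        rw [mul_assoc, h2, Matrix.single_mul_single_same, mul_one]
      · exact AddSubgroup.subset_closure ⟨1, Q.B.one_mem, P.e i, hB.le (P.e_mem i), by
          rw [one_mul, eps_mul_of hS hi (e_in P i)]⟩
    have h2 := sum_mem (t := Finset.univ) fun i _ => h1 i
    rwa [sum_e P] at h2

theorem nil_sub {x : Matrix Pt Pt F} (hx : mask (fun _ p => S p) (1 : Matrix Pt Pt F) * x = x)
    (h : IsNilpotent x) : IsNilpotent
      (x.submatrix (Subtype.val : {p // S p} → Pt) (Subtype.val : {p // S p} → Pt)) := by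
  obtain ⟨n, hn⟩ := h
  have key : ∀ m : ℕ,
      (x.submatrix (Subtype.val : {p // S p} → Pt) (Subtype.val : {p // S p} → Pt)) ^ m =
        (x ^ m).submatrix Subtype.val Subtype.val := by
    intro m
    induction m with
    | zero => rw [pow_zero, pow_zero, Matrix.submatrix_one _ Subtype.val_injective]
    | succ m ih => rw [pow_succ, ih, MorA.sub_mul, mul_assoc, hx, ← pow_succ]
  exact ⟨n, by rw [key, hn, Matrix.submatrix_zero]; rfl⟩

theorem sub_H (hB : Big P Q val) (h : SubOk Q S) {i j : ι} {b : Matrix {p // S p} {p // S p} F}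
    (hb : b ∈ (Q.sub S h).H i j) :
    ∃ c ∈ Q.B, (P.blk i j c).submatrix Subtype.val Subtype.val = b := by
  obtain ⟨⟨c, hc, rfl⟩, h2⟩ := hb
  refine ⟨c, hc, ?_⟩
  ext q p
  rw [Matrix.submatrix_apply, Matrix.submatrix_apply]
  by_cases e : P.vt p.1 = i ∧ P.vt q.1 = j
  · exact P.blk_pos c e.1 e.2
  · rw [P.blk_neg c e]
    by_contra h0
    have h3 : Q.vt p.1 = i ∧ Q.vt q.1 = j := h2 q p fun h1 => h0 h1.symm
    rw [hB.vt] at h3
    exact e h3

theorem basic_nv (hF : Flag P val ht) (hG : Good P val) (hS : IsRep P.vt val S)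
    (hB : Big P Q val) (h : SubOk Q S) {i j : ι} (hij : i ≠ j) (hi : i ∉ val)
    {b b' : Matrix {p // S p} {p // S p} F} (hb : b ∈ (Q.sub S h).H i j)
    (hb' : b' ∈ (Q.sub S h).H j i) : IsNilpotent (b' * b) := by
  obtain ⟨c, hc, rfl⟩ := sub_H hB h hb
  obtain ⟨c', hc', rfl⟩ := sub_H hB h hb'
  have h1 : P.blk i j c ∈ P.H i j := ⟨hB.off c hc i j hij fun h0 => hi h0.1, blk_in P _ _ _⟩
  have h2 : P.blk j i c' ∈ P.H j i :=
    ⟨hB.off c' hc' j i hij.symm fun h0 => hi h0.2, blk_in P _ _ _⟩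
  have h3 : mask (fun _ p => S p) (1 : Matrix Pt Pt F) * P.blk i j c ∈ P.H i j := by
    by_cases hj : j ∈ val
    · rw [← e_mul P h1.2, ← mul_assoc, eps_comm]
      exact ⟨hG.fullr j hj i hi _ h1 _ (blk_in P _ _ _), in_mul P (blk_in P _ _ _) h1.2⟩
    · rwa [eps_mul_of hS hj h1.2]
  rw [MorA.sub_mul, mul_assoc]
  exact nil_sub (eps_mul_of hS hi (in_mul P h2.2 h3.2)) (hF.basic i j hij _ h3 _ h2)

theorem flag_sub (hF : Flag P val ht) (hG : Good P val) (hS : IsRep P.vt val S)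
    (hB : Big P Q val) (h : SubOk Q S) : Flag (Q.sub S h) ∅ fun p => ht p.1 := by
  have hv : ∀ p : {p // S p}, (Q.sub S h).vt p = P.vt p.1 := fun p => congrFun hB.vt p.1
  have hu : ∀ p q : {p // S p}, P.vt p.1 = P.vt q.1 → P.vt p.1 ∈ val → p = q := fun p q e hp =>
    Subtype.ext ((hS.2 _ hp).unique ⟨rfl, p.2⟩ ⟨e.symm, q.2⟩)
  refine ⟨fun p q e _ e' => ?_, fun i _ p q r s hp hq hr hs => ?_, ?_, ?_, fun p _ c => ?_,
    fun p q e _ hlt => ?_, fun i j hij b hb b' hb' => ?_, fun _ h => h.elim, fun _ h => h.elim,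
    fun _ h => h.elim, fun _ h => h.elim⟩
  · rw [hv, hv] at e
    by_cases hp : P.vt p.1 ∈ val
    · exact hu p q e hp
    · exact Subtype.ext (hF.inj _ _ e hp e')
  · rw [hv] at hp hq hr hs
    by_cases hi : i ∈ val
    · exact Or.inl (hu p q (hp.trans hq.symm) (hp ▸ hi))
    · simpa only [Subtype.ext_iff] using hF.three i hi p.1 q.1 r.1 s.1 hp hq hr hs
  · rintro _ ⟨b, hb, rfl⟩ q p e _ h0
    rw [hv, hv] at e
    by_cases hp : P.vt p.1 ∈ val
    · rw [hu p q e.symm hp]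
    · exact (tri_of hF (hB.dg b hb)).1 _ _ e hp h0
  · rintro _ ⟨b, hb, rfl⟩ p q e _
    rw [hv, hv] at e
    by_cases hp : P.vt p.1 ∈ val
    · rw [hu p q e hp]
    · exact (tri_of hF (hB.dg b hb)).2 _ _ e hp
  · by_cases hp : P.vt p.1 ∈ val
    · exact ⟨_, ⟨Matrix.single p.1 p.1 c, hB.fat _ hp _ (in_single P rfl rfl c), rfl⟩,
        Matrix.single_apply_same _ _ _⟩
    · obtain ⟨b, hb, e⟩ := hF.onto p.1 hp c
      exact ⟨_, ⟨b, hB.le hb, rfl⟩, e⟩
  · rw [hv, hv] at e
    by_cases hp : P.vt p.1 ∈ val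
    · rw [hu p q e hp] at hlt
      exact (lt_irrefl _ hlt).elim
    · obtain ⟨b, hb, e⟩ := hF.step p.1 q.1 e hp hlt
      exact ⟨_, ⟨b, hB.le hb, rfl⟩, e⟩
  · by_cases hi : i ∈ val
    · by_cases hj : j ∈ val
      · obtain ⟨c, hc, rfl⟩ := sub_H hB h hb
        obtain ⟨c', hc', rfl⟩ := sub_H hB h hb'
        rcases val_bot hF hij hi hj with h0 | h0
        · rw [hB.vv c hc i hi j hj h0, Matrix.submatrix_zero]
          exact ⟨1, by simp⟩
        · rw [hB.vv c' hc' j hj i hi h0, Matrix.submatrix_zero]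
          exact ⟨1, by simp⟩
      · exact nil_comm (basic_nv hF hG hS hB h hij.symm hj hb' hb)
    · exact basic_nv hF hG hS hB h hij hi hb hb'

theorem smul_e (h : IsFat P val Q) (i : ι) (c : F) : c • P.e i ∈ Q.B := by
  have h1 := in_smul P c (e_in P i)
  by_cases hi : i ∈ val
  · exact (big_fat h).fat i hi _ h1
  refine (h.2 _).2 fun i' j' => ?_
  by_cases e : i' = i ∧ j' = i
  · obtain ⟨rfl, rfl⟩ := e
    rw [blk_self P h1]
    exact ⟨fun h0 => (hi h0.1).elim,
      fun _ => Submodule.smul_mem _ c (Submodule.subset_span (e_H P _)), fun h0 => (h0 rfl).elim⟩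
  · rw [blk_ne P h1 e]
    exact ⟨fun _ _ => rfl, fun _ => zero_mem _, fun _ _ => zero_mem _⟩

theorem plus_le (h : IsPlus P val Q) : P.B ≤ Q.B := fun b hb => (h.2 b).2 fun i j =>
  ⟨fun h0 => by
    obtain ⟨rfl, -⟩ := h0
    exact Submodule.subset_span (P.blk_mem hb i i), fun _ => (P.blk_mem hb i j).1⟩

theorem plus_H (h : IsPlus P val Q) {i j : ι} (hij : ¬ (i = j ∧ i ∉ val)) : Q.H i j = P.H i j := by
  ext b
  rw [Prob.mem_H, Prob.mem_H, In_congr h.1]
  refine and_congr_left fun hb => ⟨fun h1 => ?_, fun h1 => plus_le h h1⟩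
  have h2 := ((h.2 b).1 h1 i j).2 hij
  rwa [blk_self P hb] at h2

theorem flag_plus (hF : Flag P val ht) (h : IsPlus P val Q) : Flag Q val ht := by
  have hz : ∀ z ∈ val, Q.H z z = P.H z z := fun z hz => plus_H h fun h0 => h0.2 hz
  have ht' := fun b (hb : b ∈ Q.B) => tri_of hF fun i hi => ((h.2 b).1 hb i i).1 ⟨rfl, hi⟩
  refine ⟨?_, ?_, fun b hb => ?_, fun b hb => ?_, fun p hp c => ?_, fun p q e hp hlt => ?_,
    fun i j hij => ?_, fun z hv => ?_, fun z hv => ?_, fun z hv => ?_, fun z hv => ?_⟩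
  · rw [h.1]; exact hF.inj
  · rw [h.1]; exact hF.three
  · rw [h.1]; exact (ht' b hb).1
  · rw [h.1]; exact (ht' b hb).2
  · rw [h.1] at hp
    obtain ⟨b, hb, e⟩ := hF.onto p hp c
    exact ⟨b, plus_le h hb, e⟩
  · rw [h.1] at hp e
    obtain ⟨b, hb, e⟩ := hF.step p q e hp hlt
    exact ⟨b, plus_le h hb, e⟩
  · rw [plus_H h fun h0 => hij h0.1, plus_H h fun h0 => hij h0.1.symm]
    exact hF.basic i j hij
  · unfold Div
    rw [hz z hv, e_congr h.1]
    exact hF.div z hv
  · unfold ColSimple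
    rw [hz z hv, h.1]
    exact hF.col z hv
  · unfold RowSimple
    rw [hz z hv, h.1]
    exact hF.row z hv
  · rw [hz z hv, h.1]
    exact hF.num z hv

theorem val_plus {Pf : Prob k F Pt ι Unit} (hF : Flag P val ht) (h : IsPlus P val Q)
    (hf : IsFat P val Pf) : Val Q Pf val := by
  refine ⟨hf.1.trans h.1.symm, funext fun _ => rfl, fun b hb => (hf.2 b).2 fun i j => ?_,
    fun i j hij b hb => (h.2 b).2 fun i' j' => ?_, fun z hz c hc => ?_, ?_,
    (flag_plus hF h).div, (flag_plus hF h).row⟩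
  · have h1 := (h.2 b).1 hb i j
    refine ⟨fun h0 h2 => ?_, h1.1, fun h0 _ => h1.2 fun h2 => h0 h2.1⟩
    have h3 : P.blk i j b ∈ P.H i j := ⟨h1.2 fun h2 => h2.2 h0.1, blk_in P _ _ _⟩
    rwa [h2, Submodule.mem_bot] at h3
  · have h1 : P.In i j b := In_congr hf.1 ▸ hb.2
    by_cases e : i' = i ∧ j' = j
    · obtain ⟨rfl, rfl⟩ := e
      have h2 := (hf.2 b).1 hb.1 i' j'
      refine ⟨h2.2.1, fun h0 => h2.2.2 (fun e => h0 ⟨e, fun h3 => hij ⟨h3, e ▸ h3⟩⟩) hij⟩
    · rw [blk_ne P h1 e]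
      exact ⟨fun _ => zero_mem _, fun _ => zero_mem _⟩
  · exact (big_fat hf).fat z hz c (In_congr h.1 ▸ hc)
  · rintro i hi j hj ⟨b, hb, p, q, hp, hq, h0⟩
    rw [hf.1] at hp hq
    have h1 : P.H i j ≠ ⊥ := fun h1 => h0 (by
      rw [← P.blk_pos b hp hq, (big_fat hf).vv b hb i hi j hj h1]; rfl)
    obtain ⟨c, hc, hc0⟩ := Submodule.exists_mem_ne_zero_of_ne_bot h1
    obtain ⟨q', p', h2⟩ : ∃ q' p', c q' p' ≠ 0 := by
      by_contra h2
      exact hc0 (Matrix.ext fun q' p' => by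
        by_contra h3
        exact h2 ⟨q', p', h3⟩)
    obtain ⟨h3, h4⟩ := hc.2 q' p' h2
    exact ⟨c, plus_le h hc.1, p', q', by rw [h.1]; exact h3, by rw [h.1]; exact h4, h2⟩

end Enl2A

open Enl2A in
theorem enl2' : SEnl2 := by
  intro k F _ _ _ _ Pt ι _ _ _ P val ht S _ hF hG hS
  refine ⟨fun Pd hd => ⟨(big_dv hd).le, mor_ok hS (big_dv hd),
    fun h => flag_sub hF hG hS (big_dv hd) h⟩, fun Pf hf => ⟨mor_ok hS (big_fat hf),
    fun h => ⟨flag_sub hF hG hS (big_fat hf) h, fun i c => ?_⟩,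
    fun Pp hp => ⟨plus_le hp, flag_plus hF hp, val_plus hF hp hf⟩⟩⟩
  refine ⟨c • P.e i, smul_e hf i c, ?_⟩
  rw [MorA.sub_e, e_congr hf.1]
  rfl

theorem enl2 : SEnl1 → SEnl2 := fun _ => enl2'

end Pool.Agent.MP_bd94e8_al.H89
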