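import Pool.Agent.MP_bd94e8_al.H89.Spec

/-!
Restriction to a set of points that meets every vertex fully is a Morita equivalence.
-/

set_option autoImplicit false
set_option linter.unusedSectionVars false

namespace Pool.Agent.MP_bd94e8_al.H89

open Module Function

namespace MorA

section act
variable {F Pt T T' V V' : Type} [Field F] [Fintype Pt] [Fintype T] [AddCommGroup V] [Module F V]
  [AddCommGroup V'] [Module F V']

theorem act_mul (b : Matrix T' T F) (c : Matrix T Pt F) (u : Pt → V) :
    act (b * c) u = act b (act c u) := by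
  funext q
  simp only [act, Matrix.mul_apply, Finset.sum_smul, Finset.smul_sum, mul_smul]
  exact Finset.sum_comm

theorem act_one [DecidableEq Pt] (u : Pt → V) : act (1 : Matrix Pt Pt F) u = u := by
  funext q
  simp [act, Matrix.one_apply]

theorem act_add (b c : Matrix T' Pt F) (u : Pt → V) : act (b + c) u = act b u + act c u := by
  funext q
  simp [act, add_smul, Finset.sum_add_distrib]

theorem act_neg (b : Matrix T' Pt F) (u : Pt → V) : act (-b) u = -act b u := by
  funext q
  simp [act]

theorem act_zero (u : Pt → V) : act (0 : Matrix T' Pt F) u = 0 := by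
  funext q
  simp [act]

theorem act_map (g : V →ₗ[F] V') (b : Matrix T' Pt F) (u : Pt → V) :
    (fun q => g (act b u q)) = act b fun p => g (u p) := by
  funext q
  simp [act]

/-- The action as an additive map. -/
def actH (b : Matrix T' Pt F) : (Pt → V) →+ T' → V where
  toFun := act b
  map_zero' := by funext q; simp [act]
  map_add' u v := by funext q; simp [act, Finset.sum_add_distrib]

end act

variable {k F : Type} [Field k] [Field F] [Algebra k F] {Pt ι Ω : Type} [Fintype Pt]
  [DecidableEq Pt] (S : Pt → Prop) [DecidablePred S] {V : Type} [AddCommGroup V] [Module F V]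

/-- Restriction of families. -/
def rs : (Pt → V) →+ {p // S p} → V where
  toFun u p := u p.1
  map_zero' := rfl
  map_add' _ _ := rfl

/-- Extension by zero. -/
def ex : ({p // S p} → V) →+ Pt → V where
  toFun u p := if h : S p then u ⟨p, h⟩ else 0
  map_zero' := by funext p; by_cases h : S p <;> simp [h]
  map_add' u v := by funext p; by_cases h : S p <;> simp [h]

theorem act_eps (u : Pt → V) :
    act (mask (fun _ p => S p) (1 : Matrix Pt Pt F)) u = ex S (rs S u) := by
  funext q
  show ∑ p, mask (fun _ p => S p) (1 : Matrix Pt Pt F) q p • u p =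
    if h : S q then u q else 0
  rw [Finset.sum_eq_single q]
  · by_cases h : S q
    · rw [mask_pos (s := fun _ p => S p) _ h, dif_pos h, Matrix.one_apply_eq, one_smul]
    · rw [mask_neg (s := fun _ p => S p) _ h, dif_neg h, zero_smul]
  · intro p _ hp
    by_cases h : S p
    · rw [mask_pos (s := fun _ p => S p) _ h, Matrix.one_apply_ne hp.symm, zero_smul]
    · rw [mask_neg (s := fun _ p => S p) _ h, zero_smul]
  · simp

theorem act_sub (c : Matrix Pt Pt F) (v : {p // S p} → V) :
    act (c.submatrix (Subtype.val : {p // S p} → Pt) (Subtype.val : {p // S p} → Pt)) v =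
      rs S (act c (ex S v)) := by
  funext q
  show ∑ p : {p // S p}, c q.1 p.1 • v p = ∑ p, c q.1 p • (if h : S p then v ⟨p, h⟩ else 0)
  rw [← Fintype.sum_subtype_add_sum_subtype S, Finset.sum_eq_zero (s := Finset.univ)
    (f := fun p : {p // ¬ S p} => c q.1 p.1 • (if h : S p.1 then v ⟨p.1, h⟩ else 0))
    (fun p _ => by rw [dif_neg p.2, smul_zero]), add_zero]
  exact Finset.sum_congr rfl fun p _ => by rw [dif_pos p.2]

theorem act_sub' (c : Matrix Pt Pt F) (u : Pt → V) :
    act (c.submatrix (Subtype.val : {p // S p} → Pt) (Subtype.val : {p // S p} → Pt)) (rs S u) =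
      rs S (act (c * mask (fun _ p => S p) (1 : Matrix Pt Pt F)) u) := by
  rw [act_sub, act_mul, act_eps]

theorem sub_mul (b b' : Matrix Pt Pt F) :
    b.submatrix (Subtype.val : {p // S p} → Pt) (Subtype.val : {p // S p} → Pt) *
      b'.submatrix (Subtype.val : {p // S p} → Pt) (Subtype.val : {p // S p} → Pt) =
      (b * mask (fun _ p => S p) (1 : Matrix Pt Pt F) * b').submatrix Subtype.val Subtype.val := by
  ext q p
  have h := congrFun (act_sub' S (V := F) b fun r => b' r p.1) q
  rw [Matrix.mul_apply, Matrix.submatrix_apply, Matrix.mul_apply]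
  exact h

theorem sub_e (P : Prob k F Pt ι Ω) (h : SubOk P S) (j : ι) :
    (P.sub S h).e j = (P.e j).submatrix Subtype.val Subtype.val := by
  ext q p
  by_cases e : P.vt p.1 = j
  · rw [(P.sub S h).e_pos q e, Matrix.submatrix_apply, P.e_pos _ e]
    simp [Matrix.one_apply, Subtype.ext_iff]
  · rw [(P.sub S h).e_neg q e, Matrix.submatrix_apply, P.e_neg _ e]

variable [Fintype Ω]

/-- The restricted object. -/
def obj {P : Prob k F Pt ι Ω} (h0 : mask (fun _ p => S p) (1 : Matrix Pt Pt F) ∈ P.B)
    (h : SubOk P S) (M : Obj P V) : Obj (P.sub S h) V where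
  ε := M.ε
  orth := M.orth
  sum := M.sum
  U := M.U.map (rs S)
  peak := by
    rintro _ ⟨u, hu, rfl⟩ p
    exact M.peak u hu p.1
  stab := by
    rintro _ ⟨b, hb, rfl⟩ _ ⟨u, hu, rfl⟩
    exact ⟨_, M.stab _ (P.B.mul_mem hb h0) u hu, (act_sub' S b u).symm⟩

end MorA

open MorA in
theorem mor : SMor := by
  intro k F _ _ _ Pt ι Ω _ _ _ P S _ ⟨h0, h1⟩
  refine ⟨fun b hb b' hb' => ⟨_, P.B.mul_mem (P.B.mul_mem hb h0) hb', sub_mul S b b'⟩,
    fun h V _ _ M => ⟨obj S h0 h M, rfl, fun g => ⟨fun hg => ⟨hg.1, ?_⟩, fun hg => ⟨hg.1, ?_⟩⟩,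
      fun T hT => ?_⟩⟩
  · rintro _ ⟨u, hu, rfl⟩
    exact ⟨_, hg.2 u hu, rfl⟩
  · intro u hu
    have key : ∀ x ∈ AddSubgroup.closure {x | ∃ b ∈ P.B, ∃ b' ∈ P.B,
        x = b * mask (fun _ p => S p) (1 : Matrix Pt Pt F) * b'},
        act x (fun p => g (u p)) ∈ M.U := by
      intro x hx
      induction hx using AddSubgroup.closure_induction with
      | mem x hx =>
        obtain ⟨b, hb, b', hb', rfl⟩ := hx
        obtain ⟨w, hw, e⟩ := hg.2 _ ⟨_, M.stab b' hb' u hu, rfl⟩
        have e' : rs S w = rs S fun p => g (act b' u p) := e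
        rw [act_mul, act_mul, ← act_map, act_eps, ← e', ← act_eps (F := F)]
        exact M.stab b hb _ (M.stab _ h0 w hw)
      | zero => rw [act_zero]; exact zero_mem _
      | add x y _ _ hx hy => rw [act_add]; exact add_mem hx hy
      | neg x _ hx => rw [act_neg]; exact neg_mem hx
    have h2 := key 1 h1
    rwa [act_one] at h2
  · intro u hu
    have key : ∀ x ∈ AddSubgroup.closure {x | ∃ b ∈ P.B, ∃ b' ∈ P.B,
        x = b * mask (fun _ p => S p) (1 : Matrix Pt Pt F) * b'},
        act x u ∈ AddSubgroup.closure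
          {w | ∃ b ∈ P.B, ∃ j ∈ T, ∃ u' ∈ M.U, w = act (b * P.e j) u'} := by
      intro x hx
      induction hx using AddSubgroup.closure_induction with
      | mem x hx =>
        obtain ⟨b, hb, b', hb', rfl⟩ := hx
        have h3 := hT _ ⟨_, M.stab b' hb' u hu, rfl⟩
        rw [act_mul, act_mul, act_eps]
        generalize rs S (act b' u) = v at h3
        show actH b (ex S v) ∈ _
        induction h3 using AddSubgroup.closure_induction with
        | mem v hv =>
          obtain ⟨_, ⟨c, hc, rfl⟩, j, hj, _, ⟨u', hu', rfl⟩, rfl⟩ := hv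
          refine AddSubgroup.subset_closure ⟨b * mask (fun _ p => S p) (1 : Matrix Pt Pt F) *
            (c * mask (fun _ p => S p) (1 : Matrix Pt Pt F)),
            P.B.mul_mem (P.B.mul_mem hb h0) (P.B.mul_mem hc h0), j, hj, _, M.stab _ h0 u' hu', ?_⟩
          show act b _ = _
          rw [sub_e, act_mul, act_sub', act_sub', ← act_eps (F := F)]
          simp only [act_mul]
        | zero => rw [map_zero, map_zero]; exact zero_mem _
        | add x y _ _ hx hy => rw [map_add, map_add]; exact add_mem hx hy
        | neg x _ hx => rw [map_neg, map_neg]; exact neg_mem hx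
      | zero => rw [act_zero]; exact zero_mem _
      | add x y _ _ hx hy => rw [act_add]; exact add_mem hx hy
      | neg x _ hx => rw [act_neg]; exact neg_mem hx
    have h2 := key 1 h1
    rwa [act_one] at h2

end Pool.Agent.MP_bd94e8_al.H89
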